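import Pool.Agent.X234.GZ.Main

set_option autoImplicit false

/-!
# MP_9dcafa_lc, Q1: the second Grzegorczyk class is a basis for punctual standardness

Moreover a single function of the second Grzegorczyk class, with values `0` and `1` and two
arguments, is a basis for punctual standardness.
-/

namespace Pool.Agent.Results.MP_9dcafa_lc.E2IsBasis

open Pool.Agent.X234.GZ

theorem result : (Basis fun _ f => E2 f) ∧
    ∃ g : List.Vector ℕ 2 → ℕ, E2 g ∧ (∀ v, g v ≤ 1) ∧
      ∀ (S : ℕ → ℕ) (ι : ℕ ≃ ℕ), Copy S ι → PrimrecOn ι g → Standard ι := by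
  refine ⟨e2_basis, fun v => acc (v.get 0) (v.get 1), e2_acc, fun v => ?_, single_basis⟩
  change acc (v.get 0) (v.get 1) ≤ 1
  unfold acc
  split_ifs <;> omega

end Pool.Agent.Results.MP_9dcafa_lc.E2IsBasis
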